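import Mathlib
import Pool.Agent.H.MP_c5cda2_mp.Main

namespace Pool.Agent.Results.MP_c5cda2_mp.Coupling

open Filter Topology

abbrev L2 : Type := lp (fun _ : ℤ => ℂ) 2

def IsOp (V : ℤ → ℝ) (H : L2 →L[ℂ] L2) : Prop :=
  ∀ (ψ : L2) (n : ℤ), H ψ n = ψ (n - 1) + ψ (n + 1) + (V n : ℂ) * ψ n

noncomputable def ppSpace (H : L2 →L[ℂ] L2) : Submodule ℂ L2 :=
  (Submodule.span ℂ {ψ : L2 | ∃ E : ℂ, H ψ = E • ψ}).topologicalClosure

theorem result : ∃ V : ℤ → ℝ,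
    (∀ ε : ℝ, 0 < ε → ∃ p : ℕ, 0 < p ∧ ∃ W : ℤ → ℝ, (∀ n : ℤ, W (n + p) = W n) ∧
      ∀ n, |V n - W n| < ε) ∧
    ∃ a b : ℝ, 0 < a ∧ 0 < b ∧ ∃ A B : L2 →L[ℂ] L2,
      IsOp (fun n => a * V n) A ∧ IsOp (fun n => b * V n) B ∧ ppSpace A ≠ ⊥ ∧ ppSpace B = ⊥ := by
  obtain ⟨V, h1, h2, ⟨u, u0, us, ue⟩, h3⟩ := Pool.Agent.H.MP_c5cda2_mp.main
  obtain ⟨A, -, hA⟩ := Pool.Agent.H.MP_3ab43d_mp.exH (fun n => 1 * V n) 25 (by simpa using h2)
  obtain ⟨B, -, hB⟩ := Pool.Agent.H.MP_3ab43d_mp.exH (fun n => 1 / 80 * V n) 25 fun n => by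
    rw [abs_mul, abs_of_pos (by norm_num : (0 : ℝ) < 1 / 80)]
    linarith [h2 n]
  refine ⟨V, h1, 1, 1 / 80, one_pos, by norm_num, A, B, fun ψ n => by rw [hA, add_comm (ψ (n + 1))],
    fun ψ n => by rw [hB, add_comm (ψ (n + 1))], fun h => ?_, ?_⟩
  · have m1 : Memℓp (fun n => (u n : ℂ)) 1 := memℓp_gen (by simpa using us)
    let w : L2 := ⟨fun n => (u n : ℂ), m1.of_exponent_ge one_le_two⟩
    have hw : ∀ n, w n = (u n : ℂ) := fun _ => rfl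
    have : w ∈ ppSpace A := Submodule.le_topologicalClosure _ (Submodule.subset_span
      ⟨0, lp.ext (funext fun n => by
        rw [hA, hw, hw, hw]
        simp only [zero_smul, lp.coeFn_zero, Pi.zero_apply, one_mul]
        exact_mod_cast ue n)⟩)
    rw [h, Submodule.mem_bot] at this
    have z := hw 0
    rw [this, u0] at z
    simp at z
  · have : Submodule.span ℂ {ψ : L2 | ∃ E : ℂ, B ψ = E • ψ} = ⊥ := by
      rw [Submodule.span_eq_bot]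
      rintro ψ ⟨E, hE⟩
      refine lp.ext (h3 E ψ ?_ fun n => by rw [← hB, hE]; rfl)
      have := ((lp.memℓp ψ).summable (by norm_num)).tendsto_cofinite_zero.sqrt
      rw [tendsto_zero_iff_norm_tendsto_zero]
      simpa using this
    rw [ppSpace, this]
    exact IsClosed.submodule_topologicalClosure_eq (by simp)

end Pool.Agent.Results.MP_c5cda2_mp.Coupling
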